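import Pool.Agent.H29.SX.Targets

set_option autoImplicit false

/-!
# MP_c65535_nt, board shx_modules: row FIL
-/

namespace Pool.Agent.H14.SX

open NumberField Height Finset Polynomial Pool.Agent.H24.RD Pool.Agent.H23.RDD
open Pool.Agent.H29.RQ Pool.Agent.H29.SX

section

variable {K V P Ω : Type} [Field K] [AddCommGroup V] [Module K V] [FiniteDimensional K V]
  [AddCommGroup P] [Module K P] [AddCommGroup Ω] [Module K Ω]

theorem finrank_inf_ker (W : Submodule K V) (E : V →ₗ[K] Ω) :
    Module.finrank K (W.map E) + Module.finrank K (W ⊓ LinearMap.ker E : Submodule K V) =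
      Module.finrank K W := by
  have h1 := LinearMap.finrank_range_add_finrank_ker (E.domRestrict W)
  have h2 : LinearMap.range (E.domRestrict W) = W.map E := by
    rw [LinearMap.domRestrict, LinearMap.range_comp, Submodule.range_subtype]
  have h3 : (LinearMap.ker (E.domRestrict W)).map W.subtype = W ⊓ LinearMap.ker E := by
    rw [LinearMap.domRestrict, LinearMap.ker_comp, Submodule.map_comap_subtype]
  rw [h2] at h1
  rw [← h3, Submodule.finrank_map_subtype_eq]
  exact h1

/-- The successive kernels. -/
def Vc (J : V →ₗ[K] P) (E : ℕ → V →ₗ[K] Ω) : ℕ → Submodule K V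
  | 0 => LinearMap.ker J
  | c + 1 => Vc J E c ⊓ LinearMap.ker (E (c + 1))

omit [FiniteDimensional K V] in
theorem mem_Vc (J : V →ₗ[K] P) (E : ℕ → V →ₗ[K] Ω) (c : ℕ) (v : V) :
    v ∈ Vc J E c ↔ J v = 0 ∧ ∀ c', 1 ≤ c' → c' ≤ c → E c' v = 0 := by
  induction c with
  | zero =>
    rw [Vc, LinearMap.mem_ker]
    constructor
    · intro h
      exact ⟨h, fun c' h1 h2 => by omega⟩
    · exact fun h => h.1
  | succ c ih =>
    rw [Vc, Submodule.mem_inf, ih, LinearMap.mem_ker]
    constructor
    · rintro ⟨⟨h1, h2⟩, h3⟩
      refine ⟨h1, fun c' h4 h5 => ?_⟩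
      rcases Nat.lt_or_ge c' (c + 1) with h | h
      · exact h2 c' h4 (by omega)
      · have : c' = c + 1 := by omega
        rw [this]; exact h3
    · rintro ⟨h1, h2⟩
      exact ⟨⟨h1, fun c' h4 h5 => h2 c' h4 (by omega)⟩, h2 (c + 1) (by omega) le_rfl⟩

end

theorem pf_FIL : T_FIL := by
  intro K V P Ω ι _ _ _ _ _ _ _ _ J E s r0 e he hY
  have hstep : ∀ c, c ≤ s → Module.finrank K (Vc J E c) + c * r0 ≤
      Module.finrank K (LinearMap.ker J) := by
    intro c
    induction c with
    | zero => intro _; rw [Vc]; simp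
    | succ c ih =>
      intro hc
      have h1 := ih (by omega)
      obtain ⟨Y, hY1, hY2, hY3⟩ := hY (c + 1) (by omega) hc
      have h2 : Y ≤ Vc J E c := by
        intro v hv
        rw [mem_Vc]
        exact ⟨hY1 hv, fun c' h3 h4 => hY2 c' h3 (by omega) hv⟩
      have h3 := finrank_inf_ker (Vc J E c) (E (c + 1))
      have h4 : Module.finrank K (Y.map (E (c + 1))) ≤
          Module.finrank K ((Vc J E c).map (E (c + 1))) :=
        Submodule.finrank_mono (Submodule.map_mono h2)
      have h5 : Vc J E (c + 1) = Vc J E c ⊓ LinearMap.ker (E (c + 1)) := rfl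
      rw [h5, add_mul, one_mul]
      omega
  -- the total map
  set T : V →ₗ[K] P × (Fin s → Ω) := J.prod (LinearMap.pi fun c : Fin s => E (c + 1)) with hT
  have hTz : ∀ v, T v = 0 ↔ v ∈ Vc J E s := by
    intro v
    rw [mem_Vc]
    have h0 : T v = (J v, fun c : Fin s => E (c + 1) v) := rfl
    rw [h0, Prod.mk_eq_zero]
    constructor
    · rintro ⟨h1, h2⟩
      refine ⟨h1, fun c' h3 h4 => ?_⟩
      have h5 := congrFun h2 ⟨c' - 1, by omega⟩
      have h6 : c' - 1 + 1 = c' := by omega
      simp only [h6] at h5
      exact h5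
    · rintro ⟨h1, h2⟩
      refine ⟨h1, ?_⟩
      funext c
      exact h2 (c + 1) (by omega) (by omega)
  have hker : LinearMap.ker T = Vc J E s := by
    ext v
    rw [LinearMap.mem_ker, hTz]
  have hrT := LinearMap.finrank_range_add_finrank_ker T
  have hrJ := LinearMap.finrank_range_add_finrank_ker J
  rw [hker] at hrT
  have hs := hstep s le_rfl
  obtain ⟨κ, a, ha, hspan, hli⟩ := exists_linearIndependent' K (fun i => T (e i))
  have hli' : LinearIndependent K (fun i => e (a i)) := by
    apply LinearIndependent.of_comp T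
    exact hli
  have : Finite κ := hli'.finite
  have : Fintype κ := Fintype.ofFinite κ
  have hcard : Fintype.card κ = Module.finrank K (LinearMap.range T) := by
    have h1 : Set.range (fun i => T (e i)) = T '' Set.range e := by
      rw [← Set.range_comp]; rfl
    have h2 : Submodule.span K (Set.range fun i => T (e i)) = LinearMap.range T := by
      rw [h1, Submodule.span_image, he, Submodule.map_top]
    have h3 := finrank_span_eq_card hli
    rw [hspan, h2] at h3
    exact h3.symm
  set R := Fintype.card κ with hR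
  let eq := (Fintype.equivFin κ).symm
  refine ⟨R, fun i => a (eq i), ha.comp eq.injective, ?_, ?_, ?_⟩
  · rw [hcard]
    omega
  · intro x hx1 hx2
    have h1 : T (∑ i, x i • e (a (eq i))) = 0 := by
      rw [hTz, mem_Vc]
      exact ⟨hx1, hx2⟩
    rw [map_sum] at h1
    simp only [map_smul] at h1
    have hli2 : LinearIndependent K (fun i : Fin R => T (e (a (eq i)))) :=
      hli.comp eq eq.injective
    have h2 := Fintype.linearIndependent_iff.1 hli2 x h1
    funext i
    exact h2 i
  · set comb := Fintype.linearCombination K fun i : Fin R => e (a (eq i)) with hcomb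
    have h1 := LinearMap.finrank_range_add_finrank_ker (J ∘ₗ comb)
    have h2 : Module.finrank K (LinearMap.range (J ∘ₗ comb)) ≤
        Module.finrank K (LinearMap.range J) :=
      Submodule.finrank_mono (LinearMap.range_comp_le_range _ _)
    rw [Module.finrank_fin_fun] at h1
    omega

end Pool.Agent.H14.SX
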