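import Pool.Agent.H29.SX.Targets

set_option autoImplicit false

/-!
# MP_c65535_nt, board shx_modules: row SFT
-/

namespace Pool.Agent.H14.SX

open NumberField Height Finset Polynomial Pool.Agent.H24.RD Pool.Agent.H23.RDD
open Pool.Agent.H29.RQ Pool.Agent.H29.SX

section

variable {K Ω : Type} [Field K] [Field Ω] [Algebra K Ω]

theorem iter_lvl (p f m : ℕ) (θ : Ω ≃+* Ω) (κ : K ≃+* K)
    (hθ : ∀ x, θ (algebraMap K Ω x) = algebraMap K Ω (κ x)) (y : ℕ → (Fin m → ℤ) → Ω)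
    (hy : ∀ c a, y (c + 1) a = θ (y c a ^ (p ^ f))) (j : ℕ) :
    ∃ (θ' : Ω ≃+* Ω) (κ' : K ≃+* K), (∀ x, θ' (algebraMap K Ω x) = algebraMap K Ω (κ' x)) ∧
      ∀ c a, y (c + j) a = θ' (y c a ^ (p ^ (f * j))) := by
  induction j with
  | zero =>
    refine ⟨RingEquiv.refl _, RingEquiv.refl _, fun x => rfl, fun c a => ?_⟩
    simp
  | succ j ih =>
    obtain ⟨θ', κ', h1, h2⟩ := ih
    refine ⟨θ'.trans θ, κ'.trans κ, fun x => ?_, fun c a => ?_⟩
    · rw [RingEquiv.trans_apply, RingEquiv.trans_apply, h1, hθ]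
    · rw [← add_assoc, hy, h2, RingEquiv.trans_apply, ← map_pow, ← pow_mul, ← pow_add,
        mul_add, mul_one]

theorem isPt_twist {A : Type} [AddCommGroup A] {y z : A → Ω} (θ : Ω ≃+* Ω) (q : ℕ)
    (hy : IsPt y) (h : ∀ a, z a = θ (y a ^ q)) : IsPt z := by
  refine ⟨?_, fun a b => ?_⟩
  · rw [h, hy.zero, one_pow, map_one]
  · rw [h, h, h, hy.add, mul_pow, map_mul]

theorem isPt_comp {A B : Type} [AddCommGroup A] [AddCommGroup B] {y : A → Ω} (hy : IsPt y)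
    (L : B →+ A) : IsPt (fun b => y (L b)) := by
  refine ⟨?_, fun a b => ?_⟩
  · change y (L 0) = 1
    rw [map_zero, hy.zero]
  · change y (L (a + b)) = y (L a) * y (L b)
    rw [map_add, hy.add]

theorem isNm_comp {A B : Type} [AddCommGroup A] [AddCommGroup B] {N : A → ℝ} (hN : IsNm N)
    (L : B →+ A) (hL : Function.Injective L) : IsNm (fun b => N (L b)) := by
  refine ⟨fun a => ?_, fun a b => ?_, fun q a => ?_, fun ρ => ?_⟩
  · rw [map_neg, hN.neg]
  · rw [map_add]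
    exact hN.add _ _
  · rw [map_nsmul, hN.nsm]
  · exact (hN.fin ρ).preimage hL.injOn

theorem WW_mono {A : Type} [AddCommGroup A] {N : A → ℝ} (hN : IsNm N) (y : A → Ω) {ρ ρ' : ℝ}
    (h : ρ ≤ ρ') : Module.finrank K (WW K y N ρ) ≤ Module.finrank K (WW K y N ρ') := by
  have hf : (y '' {a | N a ≤ ρ'}).Finite := (hN.fin ρ').image y
  have : FiniteDimensional K (WW K y N ρ') := FiniteDimensional.span_of_finite K hf
  apply Submodule.finrank_mono
  apply Submodule.span_mono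
  apply Set.image_mono
  intro a ha
  exact le_trans ha h

end

theorem pf_SFT (h1 : T_CHO) (h2 : T_GRO) (h3 : T_LIF) (h4 : T_TWI) (h5 : T_NIN) (h6 : T_COL) :
    T_SFT := by
  intro K Ω _ _ _ _ p hp hμ θ κ hθ f m s t hpf ht y hy0 hy N hN σ ρ hσ hρ hg hnc
  have hlv := iter_lvl p f m θ κ hθ y hy
  obtain ⟨g, hg0, hgS, hgE⟩ := hg
  obtain ⟨m', L, hm', hL, hst, a0, ha0, hNa0⟩ := h1 K Ω p hp m (y 0) N σ hy0 hN g hg0 hgS hgE
  have hpt : ∀ c, IsPt (y c) := by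
    intro c
    obtain ⟨θ', κ', -, h⟩ := hlv c
    refine isPt_twist θ' (p ^ (f * c)) hy0 fun a => ?_
    rw [← h 0 a, zero_add]
  have hptL : ∀ c, IsPt (fun a => y c (L a)) := fun c => isPt_comp (hpt c) L
  have hNL := isNm_comp hN L hL
  -- numbers
  set P : ℝ := (p : ℝ) ^ f with hP
  have hP8 : (8 : ℝ) ≤ P := by
    rw [hP]
    exact_mod_cast hpf
  have hP1 : (1 : ℝ) ≤ P := by linarith
  have hB1 : (1 : ℝ) ≤ P ^ (2 * m * s) := one_le_pow₀ hP1
  have htR : (1 : ℝ) ≤ t := by exact_mod_cast ht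
  have hsR : (0 : ℝ) ≤ s := Nat.cast_nonneg s
  have hts : (1 : ℝ) ≤ t + s := by linarith
  have hBσ : 0 ≤ P ^ (2 * m * s) * σ := by positivity
  have hσB : σ ≤ P ^ (2 * m * s) * σ := le_mul_of_one_le_left hσ hB1
  have hρ' : 16 * ((t + s) * (P ^ (2 * m * s) * σ)) ≤ ρ := by
    calc 16 * ((t + s) * (P ^ (2 * m * s) * σ)) = 16 * (t + s) * P ^ (2 * m * s) * σ := by ring
      _ ≤ ρ := hρ
  have hρ1 : 16 * (P ^ (2 * m * s) * σ) ≤ ρ := by
    have : P ^ (2 * m * s) * σ ≤ (t + s) * (P ^ (2 * m * s) * σ) :=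
      le_mul_of_one_le_left hBσ hts
    linarith
  have hρ0 : 0 ≤ ρ := by linarith
  have hρ2 : 8 * (P ^ (2 * m * s) * σ) ≤ ρ / (2 * (t + s)) := by
    rw [le_div_iff₀ (by linarith)]
    calc 8 * (P ^ (2 * m * s) * σ) * (2 * (t + s)) =
        16 * ((t + s) * (P ^ (2 * m * s) * σ)) := by ring
      _ ≤ ρ := hρ'
  have hpow : ∀ c, ((p : ℝ) ^ (f * c)) = P ^ c := by
    intro c
    rw [hP, pow_mul]
  have hcm : ∀ c, c ≤ s → (P ^ c) ^ m' ≤ P ^ (2 * m * s) := by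
    intro c hc
    rw [← pow_mul]
    apply pow_le_pow_right₀ hP1
    calc c * m' ≤ s * m := Nat.mul_le_mul hc hm'
      _ ≤ 2 * m * s := by nlinarith
  have hst' : ∀ c, StabT K p (fun a => y c (L a)) (fun a => N (L a))
      ((P ^ c) ^ m' * (2 * σ)) := by
    intro c
    obtain ⟨θ', κ', hθ', h⟩ := hlv c
    have h7 := h3 K Ω p hp hμ m' (fun a => y 0 (L a)) (fun a => N (L a)) (2 * σ) (hptL 0) hNL
      (by linarith) hst (f * c)
    have h8 := (h4 K Ω θ' κ' hθ' p m' (fun a => y 0 (L a) ^ (p ^ (f * c)))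
      (fun a => N (L a))).1 _ h7
    rw [hpow] at h8
    have h9 : (fun a => y c (L a)) = fun a => θ' (y 0 (L a) ^ (p ^ (f * c))) := by
      funext a
      rw [← h 0 (L a), zero_add]
    rw [h9]
    exact h8
  refine h6 K Ω m' m L hL N hN y hpt s t ht ρ hρ0 ?_ ?_
  · intro c₁ c₂ hc hcs
    by_contra hno
    push Not at hno
    obtain ⟨j, rfl⟩ : ∃ j, c₂ = c₁ + j := ⟨c₂ - c₁, by omega⟩
    have hj : 1 ≤ j := by omega
    obtain ⟨θ', κ', hθ', h⟩ := hlv j
    have h8 : 8 ≤ p ^ (f * j) := by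
      rw [pow_mul]
      calc 8 ≤ p ^ f := hpf
        _ = (p ^ f) ^ 1 := (pow_one _).symm
        _ ≤ (p ^ f) ^ j := Nat.pow_le_pow_right (by omega) hj
    have h9 : 4 * (((p : ℝ) ^ (f * j)) ^ m' * ((P ^ c₁) ^ m' * (2 * σ))) ≤
        ρ / (2 * (t + s)) := by
      refine le_trans ?_ hρ2
      rw [hpow]
      calc 4 * ((P ^ j) ^ m' * ((P ^ c₁) ^ m' * (2 * σ)))
          = 8 * ((P ^ (c₁ + j)) ^ m' * σ) := by
            rw [pow_add, mul_pow]; ring
        _ ≤ 8 * (P ^ (2 * m * s) * σ) := by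
            have := mul_le_mul_of_nonneg_right (hcm _ hcs) hσ
            linarith
    have h10 := h5 K Ω p hp hμ θ' κ' hθ' m' (fun a => y c₁ (L a)) (fun a => N (L a))
      ((P ^ c₁) ^ m' * (2 * σ)) (ρ / (2 * (t + s))) (f * j) (hptL c₁) hNL (by positivity)
      (hst' c₁) h8 h9 ?_ a0 ?_
    · refine hnc c₁ (c₁ + j) (L a0) hc hcs ?_ ?_
      · intro h0
        exact ha0 (hL (by rw [h0, map_zero]))
      · rw [h c₁ (L a0)]
        exact h10
    · intro g' hg1 hg2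
      have h11 : (fun a => θ' (y c₁ (L a) ^ (p ^ (f * j)))) = fun a => y (c₁ + j) (L a) := by
        funext a
        rw [h c₁ (L a)]
      rw [h11]
      exact hno g' hg1 hg2
    · linarith
  · intro c hc1 hcs
    obtain ⟨θ', κ', hθ', h⟩ := hlv c
    have h7 := h2 K Ω p hp hμ m' (fun a => y 0 (L a)) (fun a => N (L a)) (2 * σ) (hptL 0) hNL
      (by linarith) hst (f * c) (ρ / 4)
    have h8 := (h4 K Ω θ' κ' hθ' p m' (fun a => y 0 (L a) ^ (p ^ (f * c)))
      (fun a => N (L a))).2 (ρ / 2)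
    have h9 : (fun a => y c (L a)) = fun a => θ' (y 0 (L a) ^ (p ^ (f * c))) := by
      funext a
      rw [← h 0 (L a), zero_add]
    rw [h9, h8]
    have h10 : 2 * (ρ / 4) = ρ / 2 := by ring
    rw [h10] at h7
    refine le_trans (WW_mono hNL _ ?_) h7
    rw [hpow]
    have h11 : (8 : ℝ) ≤ P ^ c := by
      calc (8 : ℝ) ≤ P := hP8
        _ = P ^ 1 := (pow_one _).symm
        _ ≤ P ^ c := pow_le_pow_right₀ hP1 hc1
    have h12 : 8 * (ρ / 4) ≤ P ^ c * (ρ / 4) :=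
      mul_le_mul_of_nonneg_right h11 (by linarith)
    have h13 := mul_le_mul_of_nonneg_right (hcm c hcs) hσ
    linarith

end Pool.Agent.H14.SX
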